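import Pool.Agent.H509.PopDec

/-!
# MP_1322f0_nt: Popescu's conjecture for multiquadratic extensions and decomposition groups

Let `H / F` be an abelian extension of number fields whose group `G` has exponent two, `#G = 2 ^ m`,
`S` a finite set of places of `F` which contains the archimedean and the ramified ones,
`v_1, ..., v_r` the places of `S` which split completely, `#S ≥ r + 1` (`RubinData`), so `#S - r` is the
number of the places of `S` which do not split completely in `H`. Let `G_v` be the decomposition
groups. `Popescu D` is the statement of Q1 for these data.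

A character `χ` of `G` is active if it is not trivial on `G_v` for all `v` in `S` other than
`v_1, ..., v_r` (or `χ = 1` and `#S = r + 1`), that is, if it is in `Ĝ'`. For such a `χ` let `D_χ` be the
subgroup of `ker χ` generated by the groups `G_v ∩ ker χ`, `v ∈ S`.

**Theorem.** (1) Popescu's conjecture holds for `H / F` and all finite sets `S' ⊇ S` (so in all ranks)
if `2 ^ m ≤ 2 ^ (#S - r - 1) [ker χ : D_χ]` for all active characters `χ`. In other words: `D_χ` has
rank at most `#S - r - 2` (if `χ ≠ 1`).

(2) In particular this is so if `4 ∏ (#G_v / 2) ≤ 2 ^ (#S - r)`, the product over the places `v` of `S`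
which do not split completely. For example for all `m` if all `G_v` have order at most four (as it is
the case if `v` is archimedean or does not divide two) and at least two of them have order two.

The steps of the proof: (a) the leading term of `L_S(χ, s)` at `s = 0` is divisible by the order of the
cokernel of `Cl_S(F) → Cl_S(K)` for the quadratic field `K / F` which belongs to `χ`, and by class
field theory by `[ker χ : D_χ]`; this gives Rubin's conjecture for one set `S ∪ V` and `T = {t₀}`,
where the elements of `V` split completely and generate the ray class group of `H` modulo `t₀`, so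
that Rubin's conjecture follows for all `S' ⊇ S` and all `T = {t}`, also for those `S'` which do not
satisfy the criterion. (b) For `φ_1, ..., φ_(r-1) ∈ E_S^*` the value of `w_H η'` is determined by the
values `α_t ∈ U_{S,{t}}` of `(1 - N t σ_t⁻¹) η'`: by Chebotarev's theorem `w_H` is a combination of
the numbers `N t - 1`, and the relations `ε ^ (σ_t - N t) = β_t ^ w`,
`β_t ^ (σ_t' - N t') = β_t' ^ (σ_t - N t)` show that `H(ε ^ (1 / w)) / F` is abelian.
-/

set_option autoImplicit false

open NumberField IsDedekindDomain

noncomputable section

namespace Pool.Agent.Results.MP_1322f0_nt.Multiquadratic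

open Pool.Agent.K3h30.RS Pool.Agent.H509

/-- **Popescu's conjecture for groups of exponent two and decomposition groups.** In (1) the
subgroup is generated by the `γ` with `χ (γ) = 1` which fix a place over `S`. In (2) `w i` are places
over `S` which do not split completely, at least one over each such place of `F`. `#S` is the number
of the archimedean places of `F` plus the number of the prime ideals in `D.S`. -/
theorem result {F H G : Type} [Field F] [NumberField F] [Field H] [NumberField H] [Algebra F H]
    [CommGroup G] [Finite G] [MulSemiringAction G H] [IsGaloisGroup G F H]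
    (D : RubinData F H G) (hG : ∀ g : G, g * g = 1) :
    ((∀ χ : G →* ℂˣ, D.Active χ → Nat.card G ≤
        2 ^ (Fintype.card (InfinitePlace F) + D.S.card - (D.r + 1)) *
        (Subgroup.closure {γ : G | χ γ = 1 ∧ ∃ w : Place H,
          InS (D.S : Set (HeightOneSpectrum (𝓞 F))) w ∧ Fixes w γ}).relIndex χ.ker) →
      ∀ D' : RubinData F H G, D.S ⊆ D'.S → Popescu D') ∧
    ∀ (ι : Type) [Fintype ι] (w : ι → Place H),
      (∀ i, InS (D.S : Set (HeightOneSpectrum (𝓞 F))) (w i) ∧ ∀ j, ¬ Conj G (w i) (D.w j)) →
      (∀ u : Place H, InS (D.S : Set (HeightOneSpectrum (𝓞 F))) u →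
        (∀ j, ¬ Conj G u (D.w j)) → ∃ i, Conj G u (w i)) →
      4 * ∏ i, (Nat.card {γ : G // Fixes (w i) γ} / 2) ≤
        2 ^ (Fintype.card (InfinitePlace F) + D.S.card - D.r) →
      ∀ D' : RubinData F H G, D.S ⊆ D'.S → Popescu D' :=
  ⟨fun h D' hD' => pop_crit D hG h D' hD', fun _ _ w hw hall hprod D' hD' =>
    pop_crit D hG (crit_prod D hG w hw hall hprod) D' hD'⟩

end Pool.Agent.Results.MP_1322f0_nt.Multiquadratic
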