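import Pool.Agent.H509.PopDef

/-!
# MP_1322f0_nt: Popescu's conjecture for all `S' ⊇ S` is one of its cases

Let `H / F` be a finite abelian extension of number fields with group `G`, `S` a finite set of
places of `F` which contains the archimedean and the ramified ones, `v_1, ..., v_r` the places of
`S` which split completely, `#S ≥ r + 1` (`RubinData`). `Popescu D` is the statement of Q1 for these
data, `PopescuAt p D` its part at the prime number `p` (`w_H η' ∈ Λ ⊗ ℤ_(p)`). The data, and in
particular the rank `r`, change with `S`: when a prime ideal which splits completely is added to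
`S`, the rank grows by one.

**Theorem.** Let `V` be a finite set of prime ideals of `F` outside `S` which split completely in
`H`, such that every ideal class of the ring of `S ∪ V`-integers of `H` is trivial (there are such
sets `V`, also nonempty ones and outside of any given finite set). Then Popescu's conjecture for the
*single* set `S ∪ V` is equivalent to Popescu's conjecture for *all* finite sets `S' ⊇ S`, in all
ranks `r' ≥ 1`. The same is true for the parts at a prime number `p`; there it is enough that the
class number of the ring of `S ∪ V`-integers is prime to `p` (if the class number of `H` is prime to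
`p` one may take `V = ∅`).

The steps of the proof: (`S ∪ {q}` to `S`) the contraction with the order at a prime ideal `Q` over
`q`, where the `ε` obtained has order zero at the prime ideals over `q`, since the determinants with
two equal rows vanish; (`S` to `S ∪ {q}`, if `S` generates the class group) the exterior
multiplication with an element `y` which has order `n` at one prime ideal only. Here the new
evaluators are products of old ones and of a power `y ^ (w c)` where `c ∈ ℚ[G]` is a value of the
old ones. It is shown that such `c` are mapped to `ℤ[G]` by all elements of `ℤ[G]` which annihilate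
the roots of unity, and that therefore `y ^ (w c)` has an abelian `w`-th root, for every `y`.
-/

set_option autoImplicit false

open NumberField IsDedekindDomain

noncomputable section

namespace Pool.Agent.Results.MP_1322f0_nt.OneSetDecidesAllS

open Pool.Agent.K3h30.RS Pool.Agent.H509

open Classical in
/-- Popescu's conjecture for all `S' ⊇ S` is equivalent to its case `S ∪ V`, if the elements of `V`
split completely and the prime ideals over `S ∪ V` generate the class group of `H`; such sets `V`
exist; the same for the parts at `p`. -/
theorem result {F H G : Type} [Field F] [NumberField F] [Field H] [NumberField H] [Algebra F H]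
    [CommGroup G] [Finite G] [MulSemiringAction G H] [IsGaloisGroup G F H]
    (D : RubinData F H G) :
    (∀ B : Finset (HeightOneSpectrum (𝓞 F)), ∃ V : Finset (HeightOneSpectrum (𝓞 F)),
      V.Nonempty ∧ SplitOutside D B V ∧ Generates H ⊥ ((D.S ∪ V : Finset
        (HeightOneSpectrum (𝓞 F))) : Set (HeightOneSpectrum (𝓞 F))) ∅) ∧
    (∀ V : Finset (HeightOneSpectrum (𝓞 F)), SplitOutside D ∅ V →
      (∃ D₁ : RubinData F H G, D₁.S = D.S ∪ V) ∧
      ∀ D₁ : RubinData F H G, D₁.S = D.S ∪ V → (V.Nonempty → 0 < D₁.r) ∧ (0 < D₁.r →
        (Generates H ⊥ ((D.S ∪ V : Finset (HeightOneSpectrum (𝓞 F))) :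
            Set (HeightOneSpectrum (𝓞 F))) ∅ →
          (Popescu D₁ ↔ ∀ D' : RubinData F H G, D.S ⊆ D'.S → 0 < D'.r → Popescu D')) ∧
        ∀ (p : ℕ) (hp : p.Prime),
          Generates H (notDvd p hp) ((D.S ∪ V : Finset (HeightOneSpectrum (𝓞 F))) :
            Set (HeightOneSpectrum (𝓞 F))) ∅ →
          (PopescuAt p hp D₁ ↔
            ∀ D' : RubinData F H G, D.S ⊆ D'.S → 0 < D'.r → PopescuAt p hp D'))) := by
  refine ⟨fun B => exists_V_nonempty D B, fun V hV => ⟨exists_data D V, fun D₁ hD₁ =>
    ⟨?_, fun hr => ?_⟩⟩⟩
  · rintro ⟨v, hv⟩
    obtain ⟨h1, -, h3⟩ := hV v hv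
    exact r_pos_of_split h1 h3 (by rw [hD₁]; exact Finset.mem_union_right _ hv)
  · have key : ∀ M : Submonoid ℕ,
        Generates H M ((D.S ∪ V : Finset (HeightOneSpectrum (𝓞 F))) :
          Set (HeightOneSpectrum (𝓞 F))) ∅ →
        (PopescuWith M D₁ ↔
          ∀ D' : RubinData F H G, D.S ⊆ D'.S → 0 < D'.r → PopescuWith M D') := by
      intro M hgen
      constructor
      · intro h D' hD' _
        rw [popescuWith_iff] at h ⊢
        exact pop_main' D V (fun v hv _ => (hV v hv).2.2) hgen D₁ hD₁ hr h D' hD'
      · intro h
        refine h D₁ ?_ hr
        rw [hD₁]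
        exact Finset.subset_union_left
    exact ⟨key ⊥, fun p hp => key (notDvd p hp)⟩

end Pool.Agent.Results.MP_1322f0_nt.OneSetDecidesAllS
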